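import Mathlib
import Pool.Agent.X198.FoldIFS

set_option autoImplicit false

namespace Pool.Agent.Results.MP_b8546e_an.EveryDimension

open Set Filter Topology Metric Pool.Agent.X198.FoldIFS

/-- `ℝ^n` -/
abbrev E (n : ℕ) : Type := EuclideanSpace ℝ (Fin n)

/-- an iterated function system: a finite nonempty set of continuous maps -/
def IsIFS {X : Type} [TopologicalSpace X] (F : Set (X → X)) : Prop :=
  F.Finite ∧ F.Nonempty ∧ ∀ f ∈ F, Continuous f

/-- `U` has the attraction property for `A`: the iterates of every nonempty compact subset of `U`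
converge to `A` in the Hausdorff distance. -/
def Attracts {X : Type} [MetricSpace X] (F : Set (X → X)) (A U : Set X) : Prop :=
  ∀ B : Set X, B.Nonempty → IsCompact B → B ⊆ U →
    Tendsto (fun k : ℕ => hausdorffEDist ((hut F)^[k] B) A) atTop (𝓝 0)

/-- `A` is an attractor of `F`. -/
def IsAttractor {X : Type} [MetricSpace X] (F : Set (X → X)) (A : Set X) : Prop :=
  A.Nonempty ∧ IsCompact A ∧ hut F A = A ∧ ∃ U, IsOpen U ∧ A ⊆ U ∧ Attracts F A U

/-- the basin of `A` -/
def basin {X : Type} [MetricSpace X] (F : Set (X → X)) (A : Set X) : Set X :=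
  ⋃₀ {U | IsOpen U ∧ A ⊆ U ∧ Attracts F A U}

/-- `d` is a metric -/
structure IsMetric {X : Type} (d : X → X → ℝ) : Prop where
  /-- points at distance zero are equal, and conversely -/
  zero_iff : ∀ x y, d x y = 0 ↔ x = y
  /-- symmetry -/
  symm : ∀ x y, d x y = d y x
  /-- the triangle inequality -/
  tri : ∀ x y z, d x z ≤ d x y + d y z

/-- `d` is a metric inducing the given topology. -/
def Equivalent {X : Type} [TopologicalSpace X] (d : X → X → ℝ) : Prop :=
  IsMetric d ∧ ∀ s : Set X, IsOpen s ↔ ∀ x ∈ s, ∃ ε > 0, ∀ y, d x y < ε → y ∈ s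

/-- the Lipschitz constant in `[0, ∞]` -/
noncomputable def Lip {X : Type} (f : X → X) (d : X → X → ℝ) : ENNReal :=
  ⨆ (x : X) (y : X) (_ : x ≠ y), ENNReal.ofReal (d (f x) (f y) / d x y)

/-- The embedded interval map. -/
noncomputable def G (n : ℕ) (α s : ℝ) (v : E (n + 1)) : E (n + 1) :=
  EuclideanSpace.single 0 (g α s (v 0))

/-- the system -/
noncomputable def Fn (n : ℕ) (α : ℝ) : Set (E (n + 1) → E (n + 1)) := {G n α 1, G n α (-1)}

/-- the attractor -/
noncomputable def An (n : ℕ) : Set (E (n + 1)) :=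
  (fun t : ℝ => (EuclideanSpace.single 0 t : E (n + 1))) '' Icc 0 (1 / 2)

theorem isometry_single (n : ℕ) :
    Isometry (fun t : ℝ => (EuclideanSpace.single 0 t : E (n + 1))) := by
  refine Isometry.of_dist_eq fun x y => ?_
  exact PiLp.dist_single_same 2 (fun _ : Fin (n + 1) => ℝ) 0 x y

theorem G_continuous (n : ℕ) (α s : ℝ) : Continuous (G n α s) := by
  unfold G
  refine (isometry_single n).continuous.comp ((g_continuous α s).comp ?_)
  fun_prop

theorem G_mem (n : ℕ) (α s : ℝ) (v : E (n + 1)) : G n α s v ∈ An n :=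
  ⟨g α s (v 0), ⟨fold_nonneg _, fold_le _⟩, rfl⟩

theorem G_single (n : ℕ) (α s t : ℝ) :
    G n α s (EuclideanSpace.single 0 t) = EuclideanSpace.single 0 (g α s t) := by
  unfold G
  simp

theorem isIFS (n : ℕ) (α : ℝ) : IsIFS (Fn n α) := by
  refine ⟨(finite_singleton _).insert _, ⟨_, Or.inl rfl⟩, ?_⟩
  rintro f (rfl | rfl)
  · exact G_continuous n α 1
  · exact G_continuous n α (-1)

theorem hut_subset (n : ℕ) (α : ℝ) (B : Set (E (n + 1))) : hut (Fn n α) B ⊆ An n := by
  intro v hv
  unfold hut at hv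
  rw [mem_iUnion₂] at hv
  obtain ⟨f, hf, w, -, rfl⟩ := hv
  rcases hf with rfl | rfl
  · exact G_mem n α 1 w
  · exact G_mem n α (-1) w

/-- the first coordinate -/
def pr (n : ℕ) (B : Set (E (n + 1))) : Set ℝ := (fun v : E (n + 1) => v 0) '' B

/-- the transferred operator -/
def S (α : ℝ) (B : Set ℝ) : Set ℝ := hut {g α 1, g α (-1)} B

theorem pr_hut (n : ℕ) (α : ℝ) (B : Set (E (n + 1))) : pr n (hut (Fn n α) B) = S α (pr n B) := by
  unfold pr S hut Fn
  rw [biUnion_pair, biUnion_pair, image_union, image_image, image_image, image_image, image_image]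
  simp only [G, PiLp.single_apply, if_true]

theorem pr_iter (n : ℕ) (α : ℝ) (B : Set (E (n + 1))) (k : ℕ) :
    pr n ((hut (Fn n α))^[k] B) = (S α)^[k] (pr n B) := by
  induction k with
  | zero => rfl
  | succ k ih => rw [Function.iterate_succ_apply', Function.iterate_succ_apply', pr_hut, ih]

theorem S_step (α : ℝ) (B : Set ℝ) (z : ℝ) (hz : z ∈ B) (s : ℝ) (hs : s = 1 ∨ s = -1) :
    g α s z ∈ S α B := by
  refine mem_hut ?_ hz
  rcases hs with rfl | rfl
  · exact Or.inl rfl
  · exact Or.inr rfl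

theorem S_sub (α : ℝ) (B : Set ℝ) : S α B ⊆ Icc 0 (1 / 2) := by
  intro v hv
  unfold S hut at hv
  rw [mem_iUnion₂] at hv
  obtain ⟨f, hf, w, -, rfl⟩ := hv
  rcases hf with rfl | rfl
  · exact ⟨fold_nonneg _, fold_le _⟩
  · exact ⟨fold_nonneg _, fold_le _⟩

theorem attracts (n : ℕ) {α : ℝ} (hα : Irrational α) : Attracts (Fn n α) (An n) univ := by
  intro B hB _ _
  rw [ENNReal.tendsto_atTop_zero]
  intro ε hε
  obtain ⟨δ, hδ0, hδ⟩ : ∃ δ : ℝ, 0 < δ ∧ ENNReal.ofReal δ ≤ ε := by
    rcases eq_or_ne ε ⊤ with rfl | hne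
    · exact ⟨1, one_pos, le_top⟩
    · exact ⟨ε.toReal, ENNReal.toReal_pos hε.ne' hne, (ENNReal.ofReal_toReal hne).le⟩
  obtain ⟨K, hK⟩ := approx hα hδ0
  refine ⟨K + 1, fun k hk => ?_⟩
  have hkp : k = (k - 1) + 1 := by omega
  have hsubA : (hut (Fn n α))^[k] B ⊆ An n := by
    rw [hkp, Function.iterate_succ_apply']
    exact hut_subset n α _
  have hsubS : (S α)^[k] (pr n B) ⊆ Icc 0 (1 / 2) := by
    rw [hkp, Function.iterate_succ_apply']
    exact S_sub α _
  refine hausdorffEDist_le_of_mem_edist ?_ ?_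
  · intro v hv
    exact ⟨v, hsubA hv, by simp⟩
  · rintro v ⟨y, hy, rfl⟩
    obtain ⟨z, hz, hyz⟩ := hK (S α) (S_step α) (pr n B) (hB.image _) k (by omega) hsubS y hy
    rw [← pr_iter] at hz
    obtain ⟨w, hw, hwz⟩ := hz
    refine ⟨w, hw, ?_⟩
    obtain ⟨t, ht, rfl⟩ := hsubA hw
    have hwz' : t = z := by simpa using hwz
    subst hwz'
    rw [(isometry_single n).edist_eq, edist_dist, Real.dist_eq]
    exact (ENNReal.ofReal_le_ofReal hyz.le).trans hδ

theorem hut_An (n : ℕ) {α : ℝ} (h0 : 0 < α) (h1 : α < 1 / 2) : hut (Fn n α) (An n) = An n := by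
  refine (hut_subset n α _).antisymm ?_
  rintro v ⟨y, hy, rfl⟩
  obtain ⟨x, hx, hxy⟩ := cover α hy h0 h1
  have h := mem_hut (F := Fn n α) (B := An n) (f := G n α 1) (Or.inl rfl)
    (x := EuclideanSpace.single 0 x) ⟨x, hx, rfl⟩
  rw [G_single, hxy] at h
  exact h

theorem isCompact_An (n : ℕ) : IsCompact (An n) :=
  isCompact_Icc.image (isometry_single n).continuous

theorem two_points (n : ℕ) :
    (EuclideanSpace.single 0 0 : E (n + 1)) ∈ An n ∧
    (EuclideanSpace.single 0 (1 / 2) : E (n + 1)) ∈ An n ∧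
    (EuclideanSpace.single 0 0 : E (n + 1)) ≠ EuclideanSpace.single 0 (1 / 2) := by
  refine ⟨⟨0, by norm_num, rfl⟩, ⟨1 / 2, by norm_num, rfl⟩, fun h => ?_⟩
  have := (isometry_single n).injective h
  norm_num at this

/-- A single map with a fixed point in `A` does not have `A` as an attractor. -/
theorem single_not (n : ℕ) {α : ℝ} {s : ℝ} {p : ℝ} (hp : g α s p = p) (hpA : p ∈ Icc (0 : ℝ) (1 / 2)) :
    ¬ IsAttractor {G n α s} (An n) := by
  rintro ⟨-, -, -, U, -, hAU, hU⟩
  have hpU : (EuclideanSpace.single 0 p : E (n + 1)) ∈ U := hAU ⟨p, hpA, rfl⟩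
  have h := hU {EuclideanSpace.single 0 p} (singleton_nonempty _) isCompact_singleton
    (singleton_subset_iff.2 hpU)
  have hfix : ∀ k : ℕ, (hut {G n α s})^[k] {EuclideanSpace.single 0 p} =
      {(EuclideanSpace.single 0 p : E (n + 1))} := by
    intro k
    induction k with
    | zero => rfl
    | succ k ih =>
      rw [Function.iterate_succ_apply', ih]
      unfold hut
      rw [biUnion_singleton, image_singleton, G_single, hp]
  simp only [hfix] at h
  have h0 : hausdorffEDist {(EuclideanSpace.single 0 p : E (n + 1))} (An n) = 0 :=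
    tendsto_nhds_unique tendsto_const_nhds h
  have hcl := hausdorffEDist_zero_iff_closure_eq_closure.1 h0
  rw [(isCompact_An n).isClosed.closure_eq, closure_singleton] at hcl
  obtain ⟨m1, m2, hne⟩ := two_points n
  rw [← hcl] at m1 m2
  rw [mem_singleton_iff] at m1 m2
  exact hne (m1.trans m2.symm)

theorem empty_not (n : ℕ) : ¬ IsAttractor (∅ : Set (E (n + 1) → E (n + 1))) (An n) := by
  rintro ⟨h1, -, h2, -⟩
  rw [← h2] at h1
  unfold hut at h1
  simp at h1

/-- An unstable fixed point excludes Lipschitz constant at most one. -/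
theorem lip_gt {X : Type} [TopologicalSpace X] {f : X → X} {p : X} (hp : f p = p) {U : Set X}
    (hU : U ∈ 𝓝 p) {x : ℕ → X} (hx : Tendsto x atTop (𝓝 p)) (hfx : ∀ k, f^[k] (x k) ∉ U)
    {d : X → X → ℝ} (hd : Equivalent d) : 1 < Lip f d := by
  by_contra hcon
  rw [not_lt] at hcon
  have hnn : ∀ a b, 0 ≤ d a b := by
    intro a b
    have h1 := hd.1.tri a b a
    rw [(hd.1.zero_iff a a).2 rfl, hd.1.symm b a] at h1
    linarith
  have hle : ∀ a b, d (f a) (f b) ≤ d a b := by
    intro a b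
    rcases eq_or_ne a b with rfl | hab
    · rw [(hd.1.zero_iff _ _).2 rfl, (hd.1.zero_iff _ _).2 rfl]
    · have h1 : ENNReal.ofReal (d (f a) (f b) / d a b) ≤ 1 :=
        (le_iSup_of_le a (le_iSup_of_le b
          (le_iSup (fun _ : a ≠ b => ENNReal.ofReal (d (f a) (f b) / d a b)) hab))).trans hcon
      rw [ENNReal.ofReal_le_one] at h1
      have h2 : 0 < d a b := lt_of_le_of_ne (hnn a b) fun h => hab ((hd.1.zero_iff a b).1 h.symm)
      rwa [div_le_one h2] at h1
  have hit : ∀ k : ℕ, ∀ a b, d (f^[k] a) (f^[k] b) ≤ d a b := by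
    intro k
    induction k with
    | zero => intro a b; exact le_rfl
    | succ k ih =>
      intro a b
      rw [Function.iterate_succ_apply', Function.iterate_succ_apply']
      exact (hle _ _).trans (ih a b)
  obtain ⟨V, hVU, hV, hpV⟩ := mem_nhds_iff.1 hU
  obtain ⟨ε, hε, hball⟩ := (hd.2 V).1 hV p hpV
  have hopen : IsOpen {y | d p y < ε} := by
    rw [hd.2]
    intro y hy
    refine ⟨ε - d p y, sub_pos.2 hy, fun z hz => ?_⟩
    change d p z < ε
    linarith [hd.1.tri p y z]
  have hmem : {y | d p y < ε} ∈ 𝓝 p :=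
    hopen.mem_nhds (show d p p < ε by rw [(hd.1.zero_iff p p).2 rfl]; exact hε)
  obtain ⟨k, hk⟩ := (hx.eventually hmem).exists
  refine hfx k (hVU (hball _ ?_))
  have h1 := hit k p (x k)
  rw [Function.iterate_fixed hp] at h1
  exact h1.trans_lt hk

theorem iter_single (n : ℕ) (α s t : ℝ) (k : ℕ) :
    (G n α s)^[k] (EuclideanSpace.single 0 t) = EuclideanSpace.single 0 ((g α s)^[k] t) := by
  induction k with
  | zero => rfl
  | succ k ih => rw [Function.iterate_succ_apply', ih, G_single, Function.iterate_succ_apply']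

theorem lip_G (n : ℕ) {α : ℝ} (h0 : 0 < α) (h1 : α < 1 / 2) {s : ℝ} (hs : s = 1 ∨ s = -1)
    {d : E (n + 1) → E (n + 1) → ℝ} (hd : Equivalent d) : 1 < Lip (G n α s) d := by
  obtain ⟨p, r, hr, hrep⟩ := repel h0 h1 hs
  have hp : g α s p = p := by
    have := hrep p (by simp [hr.le])
    simpa [sub_eq_zero] using this
  have hcont := (isometry_single n)
  refine lip_gt (p := EuclideanSpace.single 0 p) (U := ball (EuclideanSpace.single 0 p) r)
    (x := fun k => EuclideanSpace.single 0 (p + r / 2 ^ k)) (by rw [G_single, hp])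
    (ball_mem_nhds _ hr) ?_ ?_ hd
  · have ht : Tendsto (fun k : ℕ => p + r / 2 ^ k) atTop (𝓝 (p + 0)) := by
      refine tendsto_const_nhds.add ?_
      exact tendsto_const_nhds.div_atTop (tendsto_pow_atTop_atTop_of_one_lt (by norm_num))
    rw [add_zero] at ht
    exact (hcont.continuous.tendsto p).comp ht
  · intro k hk
    rw [iter_single, mem_ball, hcont.dist_eq, Real.dist_eq] at hk
    have h2 : (0 : ℝ) < 2 ^ k := by positivity
    have h3 : |p + r / 2 ^ k - p| = r / 2 ^ k := by
      rw [add_sub_cancel_left, abs_of_pos (div_pos hr h2)]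
    rw [repel_iter hrep k _ (by rw [h3]; field_simp; linarith), h3] at hk
    have h4 : 2 ^ k * (r / 2 ^ k) = r := by field_simp
    rw [h4] at hk
    exact lt_irrefl _ hk

/-- **Strongly non-contractive iterated function systems exist in every dimension.** For every
`n ≥ 1` there are an iterated function system `F` of (two) maps on `ℝ^n` and an attractor `A` of
`F` with basin `ℝ^n` such that `A` is not an attractor of a proper subset of `F` and
`Lip(f, d) > 1` for every `f ∈ F` and every metric `d` on `ℝ^n` equivalent to the Euclidean one. -/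
theorem _root_.Pool.Agent.Results.MP_b8546e_an.EveryDimension.result (n : ℕ) (hn : 1 ≤ n) :
    ∃ (F : Set (E n → E n)) (A : Set (E n)), IsIFS F ∧ IsAttractor F A ∧ basin F A = univ ∧
      (∀ F' : Set (E n → E n), F' ⊂ F → ¬ IsAttractor F' A) ∧
      ∀ d : E n → E n → ℝ, Equivalent d → ∀ f ∈ F, 1 < Lip f d := by
  obtain ⟨n, rfl⟩ : ∃ m, n = m + 1 := ⟨n - 1, by omega⟩
  obtain ⟨α, hα, h0, h1⟩ := exists_irrational_btwn (show (0 : ℝ) < 1 / 2 by norm_num)
  have hatt := attracts n hα
  refine ⟨Fn n α, An n, isIFS n α,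
    ⟨⟨_, (two_points n).1⟩, isCompact_An n, hut_An n h0 h1, univ, isOpen_univ, subset_univ _, hatt⟩,
    ?_, ?_, ?_⟩
  · exact eq_univ_of_univ_subset (subset_sUnion_of_mem ⟨isOpen_univ, subset_univ _, hatt⟩)
  · intro F' hF' hcon
    have hfixed : ∀ s : ℝ, (s = 1 ∨ s = -1) → ¬ IsAttractor {G n α s} (An n) := by
      intro s hs
      obtain ⟨p, r, hr, hrep⟩ := repel h0 h1 hs
      have hp : g α s p = p := by
        have := hrep p (by simp [hr.le])
        simpa [sub_eq_zero] using this
      refine single_not n hp ?_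
      rw [← hp]
      exact ⟨fold_nonneg _, fold_le _⟩
    obtain ⟨hsub, hne⟩ := hF'
    have hcases : F' = ∅ ∨ F' = {G n α 1} ∨ F' = {G n α (-1)} ∨ F' = {G n α 1, G n α (-1)} :=
      subset_pair_iff_eq.1 hsub
    rcases hcases with rfl | rfl | rfl | rfl
    · exact empty_not n hcon
    · exact hfixed 1 (Or.inl rfl) hcon
    · exact hfixed (-1) (Or.inr rfl) hcon
    · exact hne subset_rfl
  · rintro d hd f (rfl | rfl)
    · exact lip_G n h0 h1 (Or.inl rfl) hd
    · exact lip_G n h0 h1 (Or.inr rfl) hd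

end Pool.Agent.Results.MP_b8546e_an.EveryDimension
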